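import Pool.Agent.H83.VU.Targets

/-!
# Row BI2: the second step of the bilinear bound
-/

set_option autoImplicit false

open Finset Pool.Agent.H83.VU

namespace Pool.Agent.H94.VU

/-- Hölder's inequality in the form which is used -/
theorem holder_pow {ι : Type*} (S : Finset ι) (r V : ι → ℝ) (Jr R : ℝ) (s : ℕ) (hs : 1 ≤ s)
    (hr : ∀ i ∈ S, 0 ≤ r i) (hV : ∀ i ∈ S, 0 ≤ V i) (hJ : ∀ i ∈ S, r i ≤ Jr)
    (hR : ∑ i ∈ S, r i = R) :
    (∑ i ∈ S, r i * V i) ^ (2 * s) ≤ R ^ (2 * s - 2) * (Jr * R) * ∑ i ∈ S, V i ^ (2 * s) := by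
  have hR0 : 0 ≤ R := hR ▸ sum_nonneg hr
  rcases hR0.lt_or_eq with hpos | h0
  · have h1 : (∑ i ∈ S, r i * V i) ^ s ≤ R ^ (s - 1) * ∑ i ∈ S, r i * V i ^ s := by
      have h2 := Real.pow_arith_mean_le_arith_mean_pow S (fun i => r i / R) V
        (fun i hi => div_nonneg (hr i hi) hR0)
        (by rw [← sum_div, hR, div_self hpos.ne']) hV s
      have h3 : ∑ i ∈ S, r i / R * V i = (∑ i ∈ S, r i * V i) / R := by
        rw [sum_div]
        exact sum_congr rfl fun i _ => by ring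
      have h4 : ∑ i ∈ S, r i / R * V i ^ s = (∑ i ∈ S, r i * V i ^ s) / R := by
        rw [sum_div]
        exact sum_congr rfl fun i _ => by ring
      rw [h3, h4, div_pow, div_le_div_iff₀ (pow_pos hpos s) hpos] at h2
      obtain ⟨m, rfl⟩ : ∃ m, s = m + 1 := ⟨s - 1, by omega⟩
      rw [Nat.add_sub_cancel]
      have h5 : (∑ i ∈ S, r i * V i) ^ (m + 1) * R ≤
          (R ^ m * ∑ i ∈ S, r i * V i ^ (m + 1)) * R := by
        refine h2.trans (le_of_eq ?_)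
        rw [pow_succ R m]
        ring
      exact le_of_mul_le_mul_right h5 hpos
    have h6 : 0 ≤ (∑ i ∈ S, r i * V i) ^ s :=
      pow_nonneg (sum_nonneg fun i hi => mul_nonneg (hr i hi) (hV i hi)) s
    have h7 := pow_le_pow_left₀ h6 h1 2
    have h8 : (∑ i ∈ S, r i * V i ^ s) ^ 2 ≤ (∑ i ∈ S, r i ^ 2) * ∑ i ∈ S, (V i ^ s) ^ 2 :=
      sum_mul_sq_le_sq_mul_sq S r fun i => V i ^ s
    have h9 : ∑ i ∈ S, r i ^ 2 ≤ Jr * R := by
      rw [← hR, mul_sum]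
      refine sum_le_sum fun i hi => ?_
      rw [sq]
      exact mul_le_mul_of_nonneg_right (hJ i hi) (hr i hi)
    have h10 : ∑ i ∈ S, (V i ^ s) ^ 2 = ∑ i ∈ S, V i ^ (2 * s) :=
      sum_congr rfl fun i _ => by rw [← pow_mul, mul_comm]
    rw [h10] at h8
    have h11 : 0 ≤ ∑ i ∈ S, V i ^ (2 * s) := sum_nonneg fun i hi => pow_nonneg (hV i hi) _
    calc (∑ i ∈ S, r i * V i) ^ (2 * s) = ((∑ i ∈ S, r i * V i) ^ s) ^ 2 := by
          rw [← pow_mul, mul_comm]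
      _ ≤ (R ^ (s - 1) * ∑ i ∈ S, r i * V i ^ s) ^ 2 := h7
      _ = R ^ (2 * s - 2) * (∑ i ∈ S, r i * V i ^ s) ^ 2 := by
          rw [mul_pow, ← pow_mul]
          congr 2
          omega
      _ ≤ R ^ (2 * s - 2) * ((Jr * R) * ∑ i ∈ S, V i ^ (2 * s)) :=
          mul_le_mul_of_nonneg_left (h8.trans (mul_le_mul_of_nonneg_right h9 h11))
            (pow_nonneg hR0 _)
      _ = _ := by ring
  · have h1 : ∀ i ∈ S, r i = 0 := (sum_eq_zero_iff_of_nonneg hr).1 (hR.trans h0.symm)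
    have h2 : ∑ i ∈ S, r i * V i = 0 := sum_eq_zero fun i hi => by rw [h1 i hi, zero_mul]
    rw [h2, zero_pow (by omega), ← h0]
    simp

theorem ps_bounds (k s Z : ℕ) (x : Fin s → ℤ) (hx : x ∈ box s Z) (j : Fin k) :
    0 ≤ ps k x j ∧ ps k x j ≤ ((s * Z ^ ((j : ℕ) + 1) : ℕ) : ℤ) := by
  unfold Pool.Agent.H83.VU.box at hx
  rw [mem_vec] at hx
  unfold ps
  have h1 : ∀ i, 0 ≤ x i ^ ((j : ℕ) + 1) ∧ x i ^ ((j : ℕ) + 1) ≤ (Z : ℤ) ^ ((j : ℕ) + 1) := by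
    intro i
    have h2 := Finset.mem_Icc.1 (hx i)
    have h3 : 0 ≤ x i := by linarith [h2.1]
    exact ⟨pow_nonneg h3 _, pow_le_pow_left₀ h3 h2.2 _⟩
  refine ⟨sum_nonneg fun i _ => (h1 i).1, ?_⟩
  calc ∑ i, x i ^ ((j : ℕ) + 1) ≤ ∑ _i : Fin s, (Z : ℤ) ^ ((j : ℕ) + 1) :=
        sum_le_sum fun i _ => (h1 i).2
    _ = ((s * Z ^ ((j : ℕ) + 1) : ℕ) : ℤ) := by
        rw [sum_const, card_univ, Fintype.card_fin, nsmul_eq_mul]
        push_cast
        ring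

theorem ps_mem_HH (k s Z : ℕ) (q : (Fin s → ℤ) × (Fin s → ℤ)) (hq : q ∈ box s Z ×ˢ box s Z) :
    ps k q.1 - ps k q.2 ∈ HH k s Z := by
  rw [mem_product] at hq
  unfold HH
  rw [Fintype.mem_piFinset]
  intro j
  have h1 := ps_bounds k s Z q.1 hq.1 j
  have h2 := ps_bounds k s Z q.2 hq.2 j
  rw [Finset.mem_Icc, Pi.sub_apply]
  constructor
  · linarith [h1.1, h2.2]
  · linarith [h1.2, h2.1]

theorem pf_BI2 (hCS : T_CS) : T_BI2 := by
  intro k s Z a hs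
  classical
  have hfib : ∑ q ∈ box s Z ×ˢ box s Z, ‖VV a Z (ps k q.1 - ps k q.2)‖ =
      ∑ h ∈ HH k s Z, (rr k s (Icc 1 (Z : ℤ)) h : ℝ) * ‖VV a Z h‖ := by
    rw [← sum_fiberwise_of_maps_to (g := fun q : (Fin s → ℤ) × (Fin s → ℤ) =>
      ps k q.1 - ps k q.2) (fun q hq => ps_mem_HH k s Z q hq)]
    refine sum_congr rfl fun h _ => ?_
    rw [sum_congr rfl (g := fun _ => ‖VV a Z h‖) (fun q hq => by rw [(mem_filter.1 hq).2]),
      sum_const, nsmul_eq_mul]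
    rfl
  have hR : ∑ h ∈ HH k s Z, (rr k s (Icc 1 (Z : ℤ)) h : ℝ) = (Z : ℝ) ^ (2 * s) := by
    have h1 := card_eq_sum_card_fiberwise (f := fun q : (Fin s → ℤ) × (Fin s → ℤ) =>
      ps k q.1 - ps k q.2) (s := box s Z ×ˢ box s Z) (t := HH k s Z)
      (fun q hq => ps_mem_HH k s Z q hq)
    have h2 : (box s Z ×ˢ box s Z).card = Z ^ (2 * s) := by
      rw [card_product, Pool.Agent.H83.VU.box, card_vec, Int.card_Icc]
      have : ((Z : ℤ) + 1 - 1).toNat = Z := by omega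
      rw [this, ← pow_add]
      congr 1
      omega
    rw [h2] at h1
    have h3 : ∑ h ∈ HH k s Z, rr k s (Icc 1 (Z : ℤ)) h = Z ^ (2 * s) := h1.symm
    exact_mod_cast h3
  rw [hfib]
  exact holder_pow (HH k s Z) (fun h => (rr k s (Icc 1 (Z : ℤ)) h : ℝ)) (fun h => ‖VV a Z h‖)
    (J s k Z : ℝ) ((Z : ℝ) ^ (2 * s)) s hs (fun _ _ => Nat.cast_nonneg _)
    (fun _ _ => norm_nonneg _) (fun h _ => by exact_mod_cast hCS k s (Icc 1 (Z : ℤ)) h) hR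

end Pool.Agent.H94.VU
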