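import Pool.Agent.H83.VU.Targets

/-!
# Row DEG: solutions with few values
-/

set_option autoImplicit false

open Finset Pool.Agent.H83.VU

namespace Pool.Agent.H94.VU

theorem mem_bx {s N : ℕ} {x : Fin s → ℤ} :
    x ∈ Pool.Agent.H83.VU.box s N ↔ ∀ i, x i ∈ Icc 1 (N : ℤ) := by
  unfold Pool.Agent.H83.VU.box
  exact mem_vec

/-- the vectors with few values -/
theorem card_few (k T N : ℕ) (hk : 2 ≤ k) (hN : 1 ≤ N) :
    ((Pool.Agent.H83.VU.box T N).filter fun x => (univ.image x).card < k).card ≤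
      k ^ T * N ^ (k - 1) := by
  classical
  have hsub : ((Pool.Agent.H83.VU.box T N).filter fun x => (univ.image x).card < k) ⊆
      ((Pool.Agent.H83.VU.box (k - 1) N) ×ˢ (univ : Finset (Fin T → Fin (k - 1)))).image
        fun q => q.1 ∘ q.2 := by
    intro x hx
    rw [mem_filter, mem_bx] at hx
    obtain ⟨hx1, hx2⟩ := hx
    set S : Finset ℤ := univ.image x with hS
    have hcard : S.card ≤ k - 1 := by omega
    rw [mem_image]
    let e := S.equivFin
    have hmem : ∀ i, x i ∈ S := fun i => mem_image_of_mem x (mem_univ i)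
    refine ⟨(fun i => if h : (i : ℕ) < S.card then ((e.symm ⟨i, h⟩ : S) : ℤ) else 1,
      fun i => ⟨(e ⟨x i, hmem i⟩ : ℕ), lt_of_lt_of_le (e ⟨x i, hmem i⟩).2 hcard⟩), ?_, ?_⟩
    · rw [mem_product, mem_bx]
      refine ⟨fun i => ?_, mem_univ _⟩
      by_cases h : (i : ℕ) < S.card
      · simp only [h, dif_pos]
        obtain ⟨j, -, hj⟩ := mem_image.1 (e.symm ⟨i, h⟩).2
        rw [← hj]
        exact hx1 j
      · simp only [h, dif_neg, not_false_eq_true]
        rw [Finset.mem_Icc]
        constructor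
        · exact le_refl _
        · exact_mod_cast hN
    · funext i
      have h1 : ((e ⟨x i, hmem i⟩ : Fin S.card) : ℕ) < S.card := (e ⟨x i, hmem i⟩).2
      simp only [Function.comp_apply, h1, dif_pos]
      have h2 : e.symm ⟨(e ⟨x i, hmem i⟩ : ℕ), h1⟩ = ⟨x i, hmem i⟩ := by
        rw [Fin.eta, Equiv.symm_apply_apply]
      rw [h2]
  refine (card_le_card hsub).trans (card_image_le.trans ?_)
  rw [card_product, Pool.Agent.H83.VU.box, card_vec, Int.card_Icc, card_univ, Fintype.card_fun,
    Fintype.card_fin, Fintype.card_fin]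
  have : ((N : ℤ) + 1 - 1).toNat = N := by omega
  rw [this, mul_comm]
  exact Nat.mul_le_mul_right _ (Nat.pow_le_pow_left (by omega) T)

/-- vectors with given power sums -/
theorem card_sq_le (k T N : ℕ) (g : Fin k → ℤ) :
    ((Pool.Agent.H83.VU.box T N).filter fun y => g = ps k y).card ^ 2 ≤ J T k N := by
  classical
  unfold J rr
  rw [sq, ← card_product]
  refine card_le_card fun q hq => ?_
  rw [mem_product, mem_filter, mem_filter] at hq
  rw [mem_filter, mem_product]
  refine ⟨⟨hq.1.1, hq.2.1⟩, ?_⟩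
  rw [← hq.1.2, ← hq.2.2, sub_self]

theorem pf_DEG : T_DEG := by
  intro k T N hk hN
  classical
  set D := (Pool.Agent.H83.VU.box T N).filter fun x => (univ.image x).card < k with hD
  have h1 : (((Pool.Agent.H83.VU.box T N ×ˢ Pool.Agent.H83.VU.box T N).filter fun q =>
      ps k q.1 = ps k q.2 ∧ (univ.image q.1).card < k).card : ℝ) ≤
      ∑ x ∈ D, (((Pool.Agent.H83.VU.box T N).filter fun y => ps k x = ps k y).card : ℝ) := by
    have h2 := card_eq_sum_card_fiberwise (f := fun q : (Fin T → ℤ) × (Fin T → ℤ) => q.1)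
      (s := (Pool.Agent.H83.VU.box T N ×ˢ Pool.Agent.H83.VU.box T N).filter fun q =>
        ps k q.1 = ps k q.2 ∧ (univ.image q.1).card < k) (t := D) (fun q hq => by
          have hq' := mem_filter.1 hq
          rw [hD]
          exact mem_filter.2 ⟨(mem_product.1 hq'.1).1, hq'.2.2⟩)
    rw [h2, Nat.cast_sum]
    refine sum_le_sum fun x hx => ?_
    norm_cast
    refine card_le_card_of_injOn (fun q => q.2) (fun q hq => ?_) ?_
    · have hq1 := mem_filter.1 hq
      have hq2 := mem_filter.1 hq1.1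
      refine mem_filter.2 ⟨(mem_product.1 hq2.1).2, ?_⟩
      rw [← hq1.2]
      exact hq2.2.1
    · intro q hq q' hq' hqq
      have hq1 := (mem_filter.1 hq).2
      have hq2 := (mem_filter.1 hq').2
      exact Prod.ext (hq1.trans hq2.symm) hqq
  have h2 : ∀ x ∈ D, (((Pool.Agent.H83.VU.box T N).filter fun y => ps k x = ps k y).card : ℝ) ≤
      Real.sqrt (J T k N) := by
    intro x _
    apply Real.le_sqrt_of_sq_le
    exact_mod_cast card_sq_le k T N (ps k x)
  have h3 : (D.card : ℝ) ≤ (k : ℝ) ^ T * (N : ℝ) ^ (k - 1) := by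
    exact_mod_cast card_few k T N hk hN
  calc _ ≤ _ := h1
    _ ≤ ∑ _x ∈ D, Real.sqrt (J T k N) := sum_le_sum h2
    _ = (D.card : ℝ) * Real.sqrt (J T k N) := by rw [sum_const, nsmul_eq_mul]
    _ ≤ _ := mul_le_mul_of_nonneg_right h3 (Real.sqrt_nonneg _)

end Pool.Agent.H94.VU
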